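import Pool.Agent.Helper65.CL.M_Hinv
import Pool.Agent.Helper65.CB.M_GS
import Pool.Agent.Helper65.CB.M_GSt
import Pool.Agent.Helper65.CB.M_RR
import Pool.Agent.Helper84.LE.All
import Pool.Agent.Helper2.SW.M_TS
import Pool.Agent.Helper2.SW.M_Up
import Pool.Agent.Helper52.SW.M_UU
import Pool.Agent.Helper36.SW.M_Phi
import Pool.Agent.Helper84.SW.M_S2
import Pool.Agent.Helper76.SW.M_Zt
import Pool.Agent.Helper62.SW.M_Con
import Pool.Agent.Helper52.SW.M_S3
import Pool.Agent.Helper82.SW.M_S4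
import Pool.Agent.Helper89.SW.M_Geo
import Pool.Agent.Helper46.SW.M_Rat
import Pool.Agent.Helper83.SW.M_S5
import Pool.Agent.Helper17.SW.M_B2
import Pool.Agent.Helper99.SW.M_Jen
import Pool.Agent.Helper98.SW.M_FU
import Pool.Agent.Helper6.SW.M_S6
import Pool.Agent.Helper32.SW.M_Clo
import Pool.Agent.Helper50.SW.M_CoS
import Pool.Agent.Helper51.SW.M_Tr7
import Pool.Agent.Helper98.SW.M_S7

/-! # Project SW (MP_65faa7, bulk case, block S): assembly -/

set_option autoImplicit false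

open Pool.LE Pool.NL Pool.CL Pool.CB

namespace Pool.SW

/-- block S: uniform decay and finiteness, without hypotheses -/
theorem allSW : Pool.CB.StS6 ∧ Pool.CB.StS7 := by
  have hBox : StBox := LE.hBox
  have hGS' : StGS := hGS hHinv
  have hGSt' : StGSt := hGSt hGS' hHinv
  have hRR' : StRR := hRR
  have hTS' : StTS := hTS hGS'
  have hUp' : Pool.SW.StUp := Pool.SW.hUp hTS'
  have hUU' : StUU := hUU hTS' hUp'
  have hS2' : StS2 := hS2 hPhi hUU' hBox
  have hzt' : Stzt := hZt hRR' hBox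
  have hCon' : StCon := hCon hBox
  have hS3' : StS3 := hS3 hzt' hTS' hRR'
  have hS4' : StS4 := hS4 hS2' hS3' hUU' hTS'
  have hRat' : StRat := hRat hBox
  have hS5' : StS5 := hS5 hS2' hS4' hUU' hGeo hRat' hzt' hRR'
  have hB2' : StB2 := hB2 hzt' hCon' hRR'
  have hFU' : StFU := hFU hUp'
  have hClo' : StClo := hClo hTS' hUp' hUU'
  have hCoS' : StCoS := hCoS hGSt' hGS' hRR' hTS' hUp'
  have hTr7' : StTr7 := hTr7 hCoS' hUp' hRR'
  exact ⟨hS6 hS5' hB2' hJen hFU' hUU' hUp', hS7 hClo' hTr7' hUp'⟩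

end Pool.SW
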