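import Pool.Agent.Helper65.CB.StX

/-!
# Project SW (MP_65faa7, bulk case, block S): the semilinear equation for simple random walk
Paper proof: /team-store/MP_65faa7-SW-plan.md (section 3 of /team-store/MP_65faa7-bulk.md).
-/

set_option autoImplicit false

open scoped BigOperators ENNReal Topology
open Pool.LE Pool.NL Pool.CL Pool.CB Filter

namespace Pool.SW

/-- the operator `2d - J` -/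
noncomputable def AL {d : ℕ} (w : Zd d → ℝ) (x : Zd d) : ℝ := 2 * d * w x - ∑ b ∈ nb x, w b

/-- the partial sums are bounded -/
def Bd {d : ℕ} (L : Finset (Zd d)) (n : ℕ) (c V : ℝ) (f : Zd d → ℝ) (θ : ℝ) : Prop :=
  ∃ K : ℝ, ∀ N : ℕ, ∀ x ∈ L, Up (TS L n c) V f N θ x ≤ K

/-- the minimal solution -/
noncomputable def UU {d : ℕ} (L : Finset (Zd d)) (n : ℕ) (c V : ℝ) (f : Zd d → ℝ) (θ : ℝ)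
    (x : Zd d) : ℝ := ⨆ N : ℕ, Up (TS L n c) V f N θ x

/-- supersolutions -/
def Sup {d : ℕ} (L : Finset (Zd d)) (n : ℕ) (c V : ℝ) (f : Zd d → ℝ) (θ : ℝ) (W : Zd d → ℝ) : Prop :=
  (∀ x, 0 ≤ W x) ∧ ∀ x ∈ L, c / (n : ℝ) ^ 2 * (θ * f x + V / 2 * W x ^ 2) ≤ AL W x

/-- basic facts on the Green operator -/
def StTS : Prop := ∀ (d n : ℕ) (L : Finset (Zd d)) (c : ℝ), 1 ≤ d → 1 ≤ n → 0 < c →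
  (∀ f g : Zd d → ℝ, (∀ y ∈ L, f y ≤ g y) → ∀ x, TS L n c f x ≤ TS L n c g x) ∧
  (∀ f : Zd d → ℝ, (∀ y ∈ L, 0 ≤ f y) → ∀ x, 0 ≤ TS L n c f x) ∧
  (∀ (f : Zd d → ℝ) (x : Zd d), x ∉ L → TS L n c f x = 0) ∧
  (∀ (a b : ℝ) (f g : Zd d → ℝ) (x : Zd d),
    TS L n c (fun y => a * f y + b * g y) x = a * TS L n c f x + b * TS L n c g x) ∧
  (∀ f : Zd d → ℝ, ∀ x ∈ L, AL (TS L n c f) x = c / (n : ℝ) ^ 2 * f x) ∧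
  (∀ w f : Zd d → ℝ, (∀ x, x ∉ L → 0 ≤ w x) → (∀ x ∈ L, c / (n : ℝ) ^ 2 * f x ≤ AL w x) →
    ∀ x ∈ L, TS L n c f x ≤ w x)

/-- the partial sums -/
def StUp : Prop := ∀ (d n : ℕ) (L : Finset (Zd d)) (c V θ : ℝ) (f : Zd d → ℝ), 1 ≤ d → 1 ≤ n →
  0 < c → 0 < V → 0 ≤ θ → (∀ y, 0 ≤ f y) →
    (∀ r x, 0 ≤ co (TS L n c) V f r x ∧ (x ∉ L → co (TS L n c) V f r x = 0)) ∧
    (∀ N x, 0 ≤ Up (TS L n c) V f N θ x ∧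
      Up (TS L n c) V f N θ x ≤ Up (TS L n c) V f (N + 1) θ x) ∧
    (∀ N x, Up (TS L n c) V f (N + 1) θ x ≤
      TS L n c (fun y => θ * f y + V / 2 * (Up (TS L n c) V f N θ y) ^ 2) x) ∧
    (∀ N x, TS L n c (fun y => θ * f y + V / 2 * (Up (TS L n c) V f N θ y) ^ 2) x ≤
      Up (TS L n c) V f (2 * N + 1) θ x) ∧
    (∀ W : Zd d → ℝ, Sup L n c V f θ W → ∀ N x, Up (TS L n c) V f N θ x ≤ W x)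

/-- the minimal solution -/
def StUU : Prop := ∀ (d n : ℕ) (L : Finset (Zd d)) (c V : ℝ) (f : Zd d → ℝ), 1 ≤ d → 1 ≤ n →
  0 < c → 0 < V → (∀ y, 0 ≤ f y) →
    (∀ (θ : ℝ) (W : Zd d → ℝ), 0 ≤ θ → Sup L n c V f θ W →
      Bd L n c V f θ ∧ ∀ x, UU L n c V f θ x ≤ W x) ∧
    (∀ θ θ₁ : ℝ, 0 ≤ θ → θ ≤ θ₁ → Bd L n c V f θ₁ →
      Bd L n c V f θ ∧ ∀ x, UU L n c V f θ x ≤ UU L n c V f θ₁ x) ∧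
    (∀ θ : ℝ, 0 ≤ θ → Bd L n c V f θ →
      (∀ x, 0 ≤ UU L n c V f θ x ∧ (x ∉ L → UU L n c V f θ x = 0)) ∧
      (∀ N x, Up (TS L n c) V f N θ x ≤ UU L n c V f θ x) ∧
      (∀ x, Tendsto (fun N => Up (TS L n c) V f N θ x) atTop (𝓝 (UU L n c V f θ x))) ∧
      (∀ x ∈ L, UU L n c V f θ x =
        TS L n c (fun y => θ * f y + V / 2 * (UU L n c V f θ y) ^ 2) x) ∧
      (∀ x ∈ L, AL (UU L n c V f θ) x =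
        c / (n : ℝ) ^ 2 * (θ * f x + V / 2 * (UU L n c V f θ x) ^ 2)))

/-! ## The bound by Kato's inequality -/

/-- the function `u/(α+βu)` -/
def StPhi : Prop := ∀ V θ θ₁ : ℝ, 0 < V → 0 < θ → θ < θ₁ → ∃ α β : ℝ, 1 < α ∧ 0 < β ∧
  ∀ u ψ : ℝ, 0 ≤ u → 0 ≤ ψ → ψ ≤ 1 →
    θ * ψ + V / 2 * (u / (α + β * u)) ^ 2 ≤ α / (α + β * u) ^ 2 * (θ₁ * ψ + V / 2 * u ^ 2)

/-- (S2) -/
def StS2 : Prop := ∀ V θ θ₁ : ℝ, 0 < V → 0 < θ → θ < θ₁ → ∃ K ρ : ℝ, 0 < K ∧ 0 < ρ ∧ ρ < 1 ∧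
  ∀ (d n : ℕ) (L : Finset (Zd d)) (c : ℝ) (f : Zd d → ℝ), 1 ≤ d → 1 ≤ n → 0 < c →
    (∀ y, 0 ≤ f y ∧ f y ≤ 1) → Bd L n c V f θ₁ →
      ∀ x, UU L n c V f θ x ≤ K ∧ UU L n c V f θ x ≤ ρ * UU L n c V f θ₁ x

/-! ## The comparison function -/

/-- the comparison function -/
noncomputable def zt {d : ℕ} (n : ℕ) (x : Zd d) : ℝ :=
  ((1 + ∑ i, ((x i : ℝ) / n - 1 / 2) ^ 2) ^ 2)⁻¹

/-- facts on the comparison function -/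
def Stzt : Prop := ∀ d : ℕ, 21 ≤ d → ∃ cz C : ℝ, 0 < cz ∧ 1 ≤ C ∧ ∃ n₀ : ℕ, 1 ≤ n₀ ∧ ∀ n : ℕ, n₀ ≤ n →
  ∀ x : Zd d, 0 < zt n x ∧ zt n x ≤ 1 ∧ zt n x ≤ C * rr n x ^ (-(4 : ℝ)) ∧
    rr n x ^ (-(4 : ℝ)) ≤ C * zt n x ∧
    cz / (n : ℝ) ^ 2 * (rr n x ^ (-(2 : ℝ)) * zt n x) ≤ AL (zt n) x

/-- concave powers -/
def StCon : Prop := ∀ (d : ℕ) (w : Zd d → ℝ) (s : ℝ) (x : Zd d), (∀ y, 0 < w y) → 0 < s → s ≤ 1 →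
  s * w x ^ (s - 1) * AL w x ≤ AL (fun y => w y ^ s) x

/-- (S3) -/
def StS3 : Prop := ∀ (d : ℕ) (c : ℝ), 21 ≤ d → 0 < c → ∃ C : ℝ, 1 ≤ C ∧ ∃ n₀ : ℕ, 1 ≤ n₀ ∧
  ∀ n : ℕ, n₀ ≤ n → ∀ (L : Finset (Zd d)) (x : Zd d),
    TS L n c (sB n) x ≤ C * zt n x ∧ TS L n c (fun y => zt n y ^ 2) x ≤ C * zt n x

/-- (S4) -/
def StS4 : Prop := ∀ (d : ℕ) (V c θ θ₁ δ : ℝ), 21 ≤ d → 0 < V → 0 < c → 0 < θ → θ < θ₁ → 0 < δ →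
  ∃ C : ℝ, 1 ≤ C ∧ ∃ n₀ : ℕ, 1 ≤ n₀ ∧ ∀ n : ℕ, n₀ ≤ n → ∀ L : Finset (Zd d),
    Bd L n c V (sB n) θ₁ → ∀ x,
      UU L n c V (sB n) θ x ≤ C * zt n x + δ * UU L n c V (sB n) θ₁ x

/-! ## Decay -/

/-- geometric means -/
def StGeo : Prop := ∀ (d : ℕ) (w U : Zd d → ℝ) (γ : ℝ) (x : Zd d), (∀ y, 0 < w y) → (∀ y, 0 ≤ U y) →
  0 < U x → 0 < γ → γ < 1 →
    w x ^ (1 - γ) * U x ^ γ * ((1 - γ) * (AL w x / w x) + γ * (AL U x / U x)) ≤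
      AL (fun y => w y ^ (1 - γ) * U y ^ γ) x

/-- maximum principle for a quotient -/
def StRat : Prop := ∀ (d : ℕ) (L : Finset (Zd d)) (S : Set (Zd d)) (u h pu ph : Zd d → ℝ) (m : ℝ),
  0 ≤ m → (∀ x, 0 ≤ u x) → (∀ x, 0 ≤ h x) → (∀ x, x ∉ L → u x = 0) →
  (∀ x ∈ L, 0 < u x → 0 < h x) → (∀ x ∈ L, x ∈ S → u x ≤ m * h x) →
  (∀ x ∈ L, x ∉ S → 0 < u x → AL u x ≤ pu x * u x ∧ ph x * h x ≤ AL h x ∧ pu x < ph x) →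
    ∀ x, u x ≤ m * h x

/-- (S5) -/
def StS5 : Prop := ∀ (d : ℕ) (V c θ θ₂ : ℝ), 21 ≤ d → 0 < V → 0 < c → 0 < θ → θ < θ₂ →
  ∃ K : ℝ, 1 ≤ K ∧ ∃ n₀ : ℕ, 1 ≤ n₀ ∧ ∀ n : ℕ, n₀ ≤ n → ∀ L : Finset (Zd d),
    Bd L n c V (sB n) θ₂ → ∀ x, UU L n c V (sB n) θ x ≤ K * rr n x ^ (-(11 / 4) : ℝ)

/-! ## The source with a tail -/

/-- supersolution for the tail -/
def StB2 : Prop := ∀ (d : ℕ) (V c θ : ℝ), 21 ≤ d → 0 < V → 0 < c → 0 < θ →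
  ∃ κ η₂ C : ℝ, 0 < κ ∧ 0 < η₂ ∧ 1 ≤ C ∧ ∃ n₀ : ℕ, 1 ≤ n₀ ∧ ∀ n : ℕ, n₀ ≤ n →
    (∀ x : Zd d, zt n x ^ (11 / 16 : ℝ) ≤ C * rr n x ^ (-(11 / 4) : ℝ)) ∧
    ∀ (η : ℝ) (L : Finset (Zd d)), 0 ≤ η → η ≤ η₂ →
      Sup L n c V (fun y => η * rr n y ^ (-(19 / 4) : ℝ)) θ (fun x => κ * zt n x ^ (11 / 16 : ℝ))

/-- convex combinations of supersolutions -/
def StJen : Prop := ∀ (d n : ℕ) (L : Finset (Zd d)) (c V θ q q' : ℝ) (f g W W' : Zd d → ℝ),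
  0 < c → 0 < V → 0 < q → 0 < q' → 1 / q + 1 / q' = 1 → Sup L n c V f (q * θ) W →
  Sup L n c V g (q' * θ) W' →
    Sup L n c V (fun y => f y + g y) θ (fun x => W x / q + W' x / q')

/-- the derivative is bounded by the function at a larger argument -/
def StFU : Prop := ∀ θ θ₁ : ℝ, 0 < θ → θ < θ₁ → ∃ C : ℝ, 1 ≤ C ∧ ∀ (d n : ℕ) (L : Finset (Zd d))
  (c V : ℝ) (f : Zd d → ℝ), 1 ≤ d → 1 ≤ n → 0 < c → 0 < V → (∀ y, 0 ≤ f y) → ∀ N x,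
    Fp (TS L n c) V f N θ x ≤ C * Up (TS L n c) V f N θ₁ x

/-! ## Finiteness -/

/-- one step of the extension in `θ` -/
def StClo : Prop := ∀ (d n : ℕ) (L : Finset (Zd d)) (c V η A θ : ℝ) (f : Zd d → ℝ), 1 ≤ d → 1 ≤ n →
  0 < c → 0 < V → 0 < η → 0 < A → 0 ≤ θ → (∀ y, η ≤ f y) →
  (∀ N, ∀ x ∈ L, Fp (TS L n c) V f N θ x ≤ A) →
    ∀ N, ∀ x ∈ L, Fp (TS L n c) V f N (θ + η / (4 * V * A ^ 2)) x ≤ 4 * A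

/-- shifts and scaling -/
def StCoS : Prop := ∀ (d n N M r : ℕ) (c V η : ℝ) (a x : Zd d), 1 ≤ d → 1 ≤ n → n ≤ N → 0 < c →
  0 < V → 0 ≤ η → (∀ i, 0 ≤ a i ∧ a i ≤ (N : ℤ) - n) →
    co (TS (Lam d n M) n c) V (fun y => sB n y + η) r x ≤
      ((N : ℝ) / n) ^ (2 + 4 * r) * co (TS (Lam d N M) N c) V (fun y => sB N y + η) r (x + a)

/-- the truncated series is bounded independently of the truncation -/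
def StTr7 : Prop := ∀ (d M : ℕ) (V c η θ θ' : ℝ) (cl : ℕ → ℝ), 3 ≤ d → 1 ≤ M → 0 < V → 0 < c →
  0 < η → η ≤ 1 → 0 < θ → θ < θ' → (∀ r, Tendsto (fun n : ℕ => (∑ x ∈ Lam d n M,
    co (TS (Lam d n M) n c) V (fun y => sB n y + η) r x) / (n : ℝ) ^ d) atTop (𝓝 (cl r))) →
  Summable (fun r => cl r * θ' ^ r) → ∃ K : ℝ, 1 ≤ K ∧ ∀ r₀ : ℕ, ∃ n₀ : ℕ, 1 ≤ n₀ ∧
    ∀ n : ℕ, n₀ ≤ n → ∀ x ∈ Lam d n M,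
      Fp (TS (Lam d n M) n c) V (fun y => sB n y + η) r₀ θ x ≤ K

end Pool.SW
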